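import Pool.Agent.H33.HC.TB
import Pool.Agent.H57.HH.UNB

/-!
# UNFC: the second moment with shifts as a sum over `γ` (MP_347b49_nt)
-/

set_option autoImplicit false

open NumberField Complex
open scoped nonZeroDivisors

namespace Pool.Agent.H61.HC

open Pool.Agent.H33.HC Pool.Agent.H33.HH Pool.Agent.H28.RC Pool.Agent.H37.CV Pool.Agent.H25.HK
  Pool.Agent.H3.CV Pool.Agent.H57.HH

open scoped Classical in
/-- the sum over the divisors and the `γ`, for a fixed ideal `B`, complex values -/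
theorem swapZ {K : Type} [Field K] [NumberField K] [Finite (𝓞 K)ˣ] {P Q M : ℝ} {W : ℝ → ℝ}
    (hQ : 0 < Q) {δ : ℝ} (hδ : 0 < δ) (hW : ∀ u, u ≤ δ → W u = 0)
    {a B k : Ideal (𝓞 K)} (ha : a ≠ ⊥) (hk : k ≠ ⊥) (g : K → ℂ)
    (hg : ∀ (γ : K) (m : Ideal (𝓞 K)), m ≠ ⊥ → Cp P m → Mu γ B (a * m) → M < nm m → g γ = 0) :
    ∑' l : NI K, ∑' γ : Ga P a B (k * l.1), g γ.1 *
      ((Q * w1 W (‖em K γ.1 - 1‖ ^ 2 * nm B / (nm k * nm l.1 * Q)) : ℝ) : ℂ) =
    ∑ m ∈ (fin_NI M).toFinset, if Cp P m.1 then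
      ∑' γ : {γ : K // Mu γ B (a * m.1)}, g γ.1 * ((Uw P Q W k B γ.1 : ℝ) : ℂ) else 0 := by
  let c1 : K → Prop := fun γ => ∃ m, m ≠ ⊥ ∧ Cp P m ∧ Mu γ B (a * m)
  let h : NI K → K → ℝ := fun l γ => Q * w1 W (‖em K γ - 1‖ ^ 2 * nm B / (nm k * nm l.1 * Q))
  let f : NI K → K → ℂ := fun l γ => if γ ∈ Ga P a B (k * l.1) then g γ * ((h l γ : ℝ) : ℂ) else 0
  have hΓ : {γ : K | ∃ m ∈ {I : NI K | nm I.1 ≤ M}, Mu γ B (a * m.1)}.Finite := by
    have h1 : {γ : K | ∃ m ∈ {I : NI K | nm I.1 ≤ M}, Mu γ B (a * m.1)} =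
        ⋃ m ∈ {I : NI K | nm I.1 ≤ M}, {γ : K | Mu γ B (a * m.1)} := by
      ext γ
      simp only [Set.mem_ofPred_eq, Set.mem_iUnion, exists_prop]
    rw [h1]
    exact (fin_NI M).biUnion fun m _ => mu_fin (mul_ne_zero ha m.2)
  have hgΓ : ∀ γ, c1 γ → g γ ≠ 0 → γ ∈ {γ : K | ∃ m ∈ {I : NI K | nm I.1 ≤ M}, Mu γ B (a * m.1)} := by
    rintro γ ⟨m, hm, hm2, hm3⟩ h1
    refine ⟨⟨m, hm⟩, ?_, hm3⟩
    by_contra h2
    exact h1 (hg γ m hm hm2 hm3 (not_le.1 h2))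
  have hsup : ∀ l γ, h l γ ≠ 0 → nm l.1 ≤ ‖em K γ - 1‖ ^ 2 * nm B / (nm k * Q * δ) := by
    intro l γ h1
    have h2 : ¬ ‖em K γ - 1‖ ^ 2 * nm B / (nm k * nm l.1 * Q) ≤ δ := fun h3 => h1 (by
      change Q * w1 W _ = 0
      unfold w1
      rw [hW _ h3]
      ring)
    have e1 := nm_pos hk
    have e2 := nm_pos l.2
    rw [not_le, lt_div_iff₀ (by positivity)] at h2
    rw [le_div_iff₀ (by positivity)]
    linarith
  have hfs : Summable (Function.uncurry f) := by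
    refine summable_of_hasFiniteSupport ?_
    refine Set.Finite.subset (hΓ.biUnion fun γ _ =>
      (fin_NI (‖em K γ - 1‖ ^ 2 * nm B / (nm k * Q * δ))).image fun l => (l, γ)) ?_
    rintro ⟨l, γ⟩ hlγ
    have h1 : f l γ ≠ 0 := hlγ
    have h2 : γ ∈ Ga P a B (k * l.1) := by
      by_contra h3
      exact h1 (if_neg h3)
    have h3 : g γ * ((h l γ : ℝ) : ℂ) ≠ 0 := by
      have h4 : f l γ = g γ * ((h l γ : ℝ) : ℂ) := if_pos h2
      rwa [h4] at h1
    obtain ⟨h4, h5⟩ := mul_ne_zero_iff.1 h3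
    simp only [Set.mem_iUnion, exists_prop, Set.mem_image]
    exact ⟨γ, hgΓ γ h2.1 h4, l, hsup l γ (Complex.ofReal_ne_zero.1 h5), rfl⟩
  have e1 : ∀ l : NI K, ∑' γ : Ga P a B (k * l.1), g γ.1 *
      ((Q * w1 W (‖em K γ.1 - 1‖ ^ 2 * nm B / (nm k * nm l.1 * Q)) : ℝ) : ℂ) =
      ∑' γ : K, f l γ := by
    intro l
    rw [tsum_subtype (Ga P a B (k * l.1)) fun γ => g γ *
      ((Q * w1 W (‖em K γ - 1‖ ^ 2 * nm B / (nm k * nm l.1 * Q)) : ℝ) : ℂ)]
    rfl
  have e2 : ∀ γ : K, ∑' l, f l γ = if c1 γ then g γ * ((Uw P Q W k B γ : ℝ) : ℂ) else 0 := by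
    intro γ
    by_cases hc : c1 γ
    · rw [if_pos hc]
      unfold Uw
      rw [Complex.ofReal_tsum, ← tsum_mul_left]
      refine tsum_congr fun l => ?_
      by_cases h1 : ∃ q, q ≠ ⊥ ∧ Cp P q ∧ Mu (γ - 1) B (k * l.1 * q)
      · rw [if_pos h1]
        exact if_pos ⟨hc, h1⟩
      · rw [if_neg h1, Complex.ofReal_zero, mul_zero]
        exact if_neg fun h2 => h1 h2.2
    · rw [if_neg hc]
      exact (tsum_congr fun l => if_neg fun h1 => hc h1.1).trans tsum_zero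
  rw [tsum_congr e1, ← hfs.tsum_comm, tsum_congr e2]
  have e3 : ∀ m : NI K, (if Cp P m.1 then
      ∑' γ : {γ : K // Mu γ B (a * m.1)}, g γ.1 * ((Uw P Q W k B γ.1 : ℝ) : ℂ) else 0) =
      ∑' γ : K, if Cp P m.1 ∧ Mu γ B (a * m.1) then g γ * ((Uw P Q W k B γ : ℝ) : ℂ) else 0 := by
    intro m
    by_cases hc : Cp P m.1
    · rw [if_pos hc]
      refine (tsum_subtype {γ : K | Mu γ B (a * m.1)} fun γ =>
        g γ * ((Uw P Q W k B γ : ℝ) : ℂ)).trans ?_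
      refine tsum_congr fun γ => ?_
      by_cases h1 : Mu γ B (a * m.1)
      · rw [if_pos ⟨hc, h1⟩, Set.indicator_of_mem (by exact h1)]
      · rw [if_neg fun h2 => h1 h2.2, Set.indicator_of_notMem (by exact h1)]
    · rw [if_neg hc]
      exact ((tsum_congr fun γ => if_neg fun h1 => hc h1.1).trans tsum_zero).symm
  rw [Finset.sum_congr rfl fun m _ => e3 m, ← Summable.tsum_finsetSum]
  · refine tsum_congr fun γ => ?_
    by_cases hc : c1 γ
    · rw [if_pos hc]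
      obtain ⟨m, hm, hm2, hm3⟩ := hc
      by_cases hM : nm m ≤ M
      · rw [Finset.sum_eq_single (⟨m, hm⟩ : NI K)]
        · rw [if_pos ⟨hm2, hm3⟩]
        · intro m' _ hne
          refine if_neg ?_
          rintro ⟨_, h2⟩
          exact hne (Subtype.ext (mul_left_cancel₀ ha (mu_unique h2 hm3)))
        · intro h1
          refine absurd ?_ h1
          rw [Set.Finite.mem_toFinset, Set.mem_ofPred_eq]
          exact hM
      · rw [hg γ m hm hm2 hm3 (not_le.1 hM)]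
        simp
    · rw [if_neg hc]
      symm
      exact Finset.sum_eq_zero fun m _ => if_neg fun h1 => hc ⟨m.1, m.2, h1.1, h1.2⟩
  · intro m _
    refine summable_of_hasFiniteSupport ?_
    refine (mu_fin (K := K) (I := B) (mul_ne_zero ha m.2)).subset ?_
    intro γ hγ
    by_contra h1
    exact hγ (if_neg fun h2 => h1 h2.2)

section

variable {K : Type} [Field K] [NumberField K]

open scoped Classical in
theorem sumZ_eq {P M : ℝ} {f : Ideal (𝓞 K) → ℂ} (h : ∀ I, I ≠ ⊥ → Cp P I → M < nm I → f I = 0) :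
    sumZ P f = ∑ I ∈ (fin_NI M).toFinset, if Cp P I.1 then f I.1 else 0 := by
  unfold sumZ
  refine tsum_eq_sum fun I hI => ?_
  rw [Set.Finite.mem_toFinset, Set.mem_ofPred_eq, not_le] at hI
  split_ifs with hc
  · exact h I.1 I.2 hc hI
  · rfl

open scoped Classical in
/-- the coefficients -/
noncomputable def cz (P Z : ℝ) (G : ℝ → ℝ) (s : ℂ) (m : NI K) : ℂ :=
  if Cp P m.1 then gc G Z s (nm m.1) else 0

theorem gc_zero {G : ℝ → ℝ} {Z t : ℝ} {s : ℂ} (hZ : 0 < Z) (hG : ∀ v, 6 ≤ v → Gs G s v = 0)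
    (h : 6 * Z < t) : gc G Z s t = 0 := by
  unfold gc
  rw [hG _ ((le_div_iff₀ hZ).2 h.le), mul_zero]

theorem csumZ {P Z : ℝ} {G : ℝ → ℝ} {s : ℂ} (hZ : 0 < Z) (hG : ∀ v, 6 ≤ v → Gs G s v = 0)
    {f : Ideal (𝓞 K) → ℂ}
    (F : Ideal (𝓞 K) → ℂ) (hf : ∀ m, m ≠ ⊥ → f m = gc G Z s (nm m) * F m) :
    sumZ P f = ∑ m ∈ (fin_NI (K := K) (6 * Z)).toFinset, cz P Z G s m * F m.1 := by
  rw [sumZ_eq (M := 6 * Z) fun I hI _ h => by rw [hf I hI, gc_zero hZ hG h, zero_mul]]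
  refine Finset.sum_congr rfl fun m _ => ?_
  unfold cz
  split_ifs with h
  · exact hf m.1 m.2
  · rw [zero_mul]

/-- the sum over the `γ` for a pair of ideals -/
noncomputable def SZ (P Q : ℝ) (W H : ℝ → ℝ) (s : ℂ) (k A B : Ideal (𝓞 K)) : ℂ :=
  ∑' γ : {γ : K // Mu γ B A}, (((‖em K γ.1‖ ^ 2 : ℝ) : ℂ) ^ s * Hs H s (‖em K γ.1‖ ^ 2)) *
    ((Uw P Q W k B γ.1 : ℝ) : ℂ)

theorem cexp' {x : ℝ} (hx : 0 < x) (s : ℂ) :
    (x : ℂ) ^ s = Complex.exp (((Real.log x : ℝ) : ℂ) * s) := by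
  rw [Complex.cpow_def_of_ne_zero (by exact_mod_cast hx.ne'), Complex.ofReal_log hx.le]

/-- the identity of the powers -/
theorem pwid {x y m n v : ℝ} (hx : 0 < x) (hy : 0 < y) (hm : 0 < m) (hn : 0 < n) (hv : 0 < v)
    (h : v * (y * n) = x * m) (α β : ℂ) (u : ℝ) :
    (x : ℂ) ^ α * (y : ℂ) ^ (-1 - α) * (n : ℂ) ^ (-1 - (α + β)) =
    (x : ℂ) ^ (-se 0 u) * (y : ℂ) ^ (-se 0 (-u)) *
      ((n : ℂ) ^ (-se β (-u)) * (m : ℂ) ^ (-se α u) * (v : ℂ) ^ (se α u)) := by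
  have e1 : Real.log v = Real.log x + Real.log m - Real.log y - Real.log n := by
    have h1 := congrArg Real.log h
    rw [Real.log_mul hv.ne' (by positivity), Real.log_mul hy.ne' hn.ne',
      Real.log_mul hx.ne' hm.ne'] at h1
    linarith
  rw [cexp' hx, cexp' hy, cexp' hn, cexp' hx, cexp' hy, cexp' hn, cexp' hm, cexp' hv]
  rw [← Complex.exp_add, ← Complex.exp_add, ← Complex.exp_add, ← Complex.exp_add,
    ← Complex.exp_add, ← Complex.exp_add, e1]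
  congr 1
  unfold se
  push_cast
  ring

theorem Oa2_eq [Finite (𝓞 K)ˣ] {P Z Q : ℝ} {W G H : ℝ → ℝ} (hQ : 0 < Q) (hZ : 0 < Z)
    (hW : IsW W) {a b k : Ideal (𝓞 K)} (ha : a ≠ ⊥) (hb : b ≠ ⊥) (hk : k ≠ ⊥)
    (hnm : ∀ (γ : K) (I J : Ideal (𝓞 K)), Mu γ I J → ‖em K γ‖ ^ 2 * nm I = nm J)
    {α β : ℂ} {u : ℝ} (hG1 : ∀ v, 6 ≤ v → Gs G (se α u) v = 0)
    (hG2 : ∀ v, 6 ≤ v → Gs G (se β (-u)) v = 0) :
    Oa2 P Z Q W G H k a b α β u =
      ((nm a : ℝ) : ℂ) ^ (-se 0 u) * ((nm b : ℝ) : ℂ) ^ (-se 0 (-u)) *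
      ∑ n ∈ (fin_NI (K := K) (6 * Z)).toFinset,
      ∑ m ∈ (fin_NI (K := K) (6 * Z)).toFinset, cz P Z G (se β (-u)) n * cz P Z G (se α u) m *
        SZ P Q W H (se α u) k (a * m.1) (b * n.1) := by
  classical
  obtain ⟨δ, hδ, hδW⟩ := hW.low
  unfold Oa2
  rw [csumZ hZ hG2 (fun n => ((nm a : ℝ) : ℂ) ^ (-se 0 u) * ((nm b : ℝ) : ℂ) ^ (-se 0 (-u)) *
    ∑ m ∈ (fin_NI (K := K) (6 * Z)).toFinset, cz P Z G (se α u) m *
        SZ P Q W H (se α u) k (a * m.1) (b * n))]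
  · rw [Finset.mul_sum]
    refine Finset.sum_congr rfl fun n _ => ?_
    rw [Finset.mul_sum, Finset.mul_sum, Finset.mul_sum]
    exact Finset.sum_congr rfl fun m _ => by ring
  · intro n hn
    have pa := nm_pos ha
    have pb := nm_pos hb
    have pn := nm_pos hn
    have key : ∀ (γ : K) (m : Ideal (𝓞 K)), Mu γ (b * n) (a * m) →
        ‖em K γ‖ ^ 2 * (nm b * nm n) / (nm a * Z) = nm m / Z := by
      intro γ m h
      have h1 := hnm _ _ _ h
      rw [nm_mul, nm_mul] at h1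
      rw [h1]
      field_simp
    have h1 := swapZ (K := K) (P := P) (M := 6 * Z) hQ hδ hδW ha hk (fun γ =>
      ((nm a : ℝ) : ℂ) ^ α * ((nm b : ℝ) : ℂ) ^ (-1 - α) * ((nm n : ℝ) : ℂ) ^ (-1 - (α + β)) *
      Gs G (se β (-u)) (nm n / Z) *
      (Hs H (se α u) (‖em K γ‖ ^ 2) *
        Gs G (se α u) (‖em K γ‖ ^ 2 * (nm b * nm n) / (nm a * Z)))) (by
        intro γ m _ _ h hm
        rw [key γ m h, hG1 _ ((le_div_iff₀ hZ).2 hm.le)]
        ring)
    rw [nm_mul] at h1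
    rw [h1, Finset.mul_sum, Finset.mul_sum]
    refine Finset.sum_congr rfl fun m _ => ?_
    unfold cz
    by_cases hm : Cp P m.1
    · rw [if_pos hm, if_pos hm, ← mul_assoc, ← mul_assoc]
      unfold SZ
      rw [← tsum_mul_left]
      refine tsum_congr fun γ => ?_
      rw [key γ.1 m.1 γ.2, ← mul_assoc (_ * _ * gc G Z (se α u) (nm m.1))]
      congr 1
      have h2 := hnm _ _ _ γ.2
      rw [nm_mul, nm_mul] at h2
      have pm := nm_pos m.2
      have pu : 0 < ‖em K γ.1‖ ^ 2 := by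
        by_contra h3
        have h4 : ‖em K γ.1‖ ^ 2 = 0 := le_antisymm (not_lt.1 h3) (by positivity)
        rw [h4, zero_mul] at h2
        exact (mul_pos pa pm).ne h2
      rw [pwid pa pb pm pn pu h2 α β u]
      unfold gc
      ring
    · rw [if_neg hm, if_neg hm]
      ring

end

/-- UNFC -/
theorem pf_UNFC (h1 : T_GSC) (h2 : T_HSC) (h3 : Pool.Agent.H33.HH.T_UN1)
    (h4 : Pool.Agent.H33.HH.T_UN2) (h5 : Pool.Agent.H33.HH.T_NRM)
    (h6 : Pool.Agent.H33.HH.T_GA2) : T_UNFC := by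
  classical
  intro K _ _ _ P Z Q W G H hQ hZ hW hG hH a b k ha hb hPa hPb hk α β u hα hβ
  obtain ⟨_, _, hfin, _, _, _, hnm⟩ := h5 K
  have := hfin
  have hk0 := hk.1
  have _ := h6
  have hX : ∀ m ∈ (fin_NI (K := K) (6 * Z)).toFinset, m.1 ≠ ⊥ := fun m _ => m.2
  have hG1 := ((h1 G hG).1 (se α u) hα).2.2.1
  have hG2 := ((h1 G hG).1 (se β (-u)) hβ).2.2.1
  have hsym := ((h2 H hH).1 (se α u)).2.2.2.2 (se β (-u))
  have pa := nm_pos ha
  have pb := nm_pos hb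
  -- the diagonal
  have hD : ((TW K P Q W : ℝ) : ℂ) * Dd2 P Z G a b α β u =
      ((nm a : ℝ) : ℂ) ^ (-se 0 u) * ((nm b : ℝ) : ℂ) ^ (-se 0 (-u)) *
      ∑ m ∈ (fin_NI (K := K) (6 * Z)).toFinset,
      ∑ n ∈ (fin_NI (K := K) (6 * Z)).toFinset, cz P Z G (se β (-u)) n * cz P Z G (se α u) m *
        (if a * m.1 = b * n.1 then ((TW K P Q W : ℝ) : ℂ) else 0) := by
    have hin : ∀ m n : Ideal (𝓞 K), m ≠ ⊥ → n ≠ ⊥ →
        (((nm a : ℝ) : ℂ) ^ α * ((nm b : ℝ) : ℂ) ^ (-1 - α)) *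
        (if a * m = b * n then ((nm n : ℝ) : ℂ) ^ (-1 - (α + β)) *
          (Gs G (se α u) (nm m / Z) * Gs G (se β (-u)) (nm n / Z)) else 0) =
        ((nm a : ℝ) : ℂ) ^ (-se 0 u) * ((nm b : ℝ) : ℂ) ^ (-se 0 (-u)) *
        (gc G Z (se α u) (nm m) * (gc G Z (se β (-u)) (nm n) *
          (if a * m = b * n then 1 else 0))) := by
      intro m n hm hn
      split_ifs with h
      · have e1 : (1 : ℝ) * (nm b * nm n) = nm a * nm m := by
          rw [one_mul, ← nm_mul, ← nm_mul, h]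
        have e2 := pwid pa pb (nm_pos hm) (nm_pos hn) one_pos e1 α β u
        rw [Complex.ofReal_one, Complex.one_cpow, mul_one] at e2
        unfold gc
        calc _ = (((nm a : ℝ) : ℂ) ^ α * ((nm b : ℝ) : ℂ) ^ (-1 - α) *
            ((nm n : ℝ) : ℂ) ^ (-1 - (α + β))) *
            (Gs G (se α u) (nm m / Z) * Gs G (se β (-u)) (nm n / Z)) := by ring
          _ = _ := by
            rw [e2]
            ring
      · ring
    have e0 : (((nm a : ℝ) : ℂ) ^ α * ((nm b : ℝ) : ℂ) ^ (-1 - α)) *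
        (sumZ P fun m => sumZ P fun n =>
        if a * m = b * n then ((nm n : ℝ) : ℂ) ^ (-1 - (α + β)) *
        (Gs G (se α u) (nm m / Z) * Gs G (se β (-u)) (nm n / Z)) else 0) =
        sumZ P fun m => sumZ P fun n =>
        ((nm a : ℝ) : ℂ) ^ (-se 0 u) * ((nm b : ℝ) : ℂ) ^ (-se 0 (-u)) *
        (gc G Z (se α u) (nm m) * (gc G Z (se β (-u)) (nm n) *
          (if a * m = b * n then 1 else 0))) := by
      unfold sumZ
      rw [← tsum_mul_left]
      refine tsum_congr fun m => ?_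
      split_ifs with hm
      · rw [← tsum_mul_left]
        refine tsum_congr fun n => ?_
        by_cases hn : Cp P n.1
        · rw [if_pos hn, if_pos hn]
          exact hin m.1 n.1 m.2 n.2
        · rw [if_neg hn, if_neg hn, mul_zero]
      · rw [mul_zero]
    unfold Dd2
    rw [e0]
    rw [csumZ hZ hG1 fun m => ((nm a : ℝ) : ℂ) ^ (-se 0 u) * ((nm b : ℝ) : ℂ) ^ (-se 0 (-u)) *
      ∑ n ∈ (fin_NI (K := K) (6 * Z)).toFinset, cz P Z G (se β (-u)) n *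
      (if a * m = b * n.1 then 1 else 0)]
    · rw [Finset.mul_sum, Finset.mul_sum]
      refine Finset.sum_congr rfl fun m _ => ?_
      rw [Finset.mul_sum, Finset.mul_sum, Finset.mul_sum, Finset.mul_sum]
      refine Finset.sum_congr rfl fun n _ => ?_
      split_ifs <;> ring
    · intro m _
      rw [csumZ hZ hG2 fun n => ((nm a : ℝ) : ℂ) ^ (-se 0 u) * ((nm b : ℝ) : ℂ) ^ (-se 0 (-u)) *
        (gc G Z (se α u) (nm m) * (if a * m = b * n then 1 else 0))]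
      · rw [Finset.mul_sum, Finset.mul_sum]
        exact Finset.sum_congr rfl fun n _ => by ring
      · intro n _
        ring
  -- the whole sum
  have hW0 : ∀ q : Ideal (𝓞 K), Q < nm q → W (nm q / Q) = 0 := fun q hq =>
    hW.high _ ((one_le_div hQ).2 hq.le)
  have hB : Ba2 P Z Q W G k a b (se α u) (se β (-u)) =
      ∑ m ∈ (fin_NI (K := K) (6 * Z)).toFinset,
      ∑ n ∈ (fin_NI (K := K) (6 * Z)).toFinset, cz P Z G (se β (-u)) n * cz P Z G (se α u) m *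
        ((if a * m.1 = b * n.1 then ((TW K P Q W : ℝ) : ℂ) else 0) +
          ((∑' γ : {γ : K // Mu γ (b * n.1) (a * m.1)}, Uw P Q W k (b * n.1) γ.1 : ℝ) : ℂ)) := by
    have hq : ∀ q : Ideal (𝓞 K), Qa2 P Z G (se α u) (se β (-u)) (k * q) a b =
        ∑ m ∈ (fin_NI (K := K) (6 * Z)).toFinset, ∑ n ∈ (fin_NI (K := K) (6 * Z)).toFinset,
          cz P Z G (se β (-u)) n * cz P Z G (se α u) m *
            (kap (k * q) (a * m.1) (b * n.1) : ℂ) := by
      intro q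
      unfold Qa2
      rw [csumZ hZ hG1 fun m => ∑ n ∈ (fin_NI (K := K) (6 * Z)).toFinset,
        cz P Z G (se β (-u)) n * (kap (k * q) (a * m) (b * n.1) : ℂ)]
      · refine Finset.sum_congr rfl fun m _ => ?_
        rw [Finset.mul_sum]
        exact Finset.sum_congr rfl fun n _ => by ring
      · intro m _
        rw [csumZ hZ hG2 fun n => gc G Z (se α u) (nm m) * (kap (k * q) (a * m) (b * n) : ℂ)]
        · rw [Finset.mul_sum]
          exact Finset.sum_congr rfl fun n _ => by ring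
        · intro n _
          ring
    unfold Ba2
    rw [sumZ_eq (M := Q) (fun q _ _ hq' => by rw [hW0 q hq']; simp)]
    have h7 : ∀ q : NI K, (if Cp P q.1 then ((W (nm q.1 / Q) * nm q.1 : ℝ) : ℂ) *
        Qa2 P Z G (se α u) (se β (-u)) (k * q.1) a b
        else 0) = ∑ m ∈ (fin_NI (K := K) (6 * Z)).toFinset,
          ∑ n ∈ (fin_NI (K := K) (6 * Z)).toFinset, cz P Z G (se β (-u)) n *
            cz P Z G (se α u) m *
            (((if Cp P q.1 then W (nm q.1 / Q) * nm q.1 *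
              (kap (k * q.1) (a * m.1) (b * n.1) : ℝ) else 0 : ℝ)) : ℂ) := by
      intro q
      split_ifs with hc
      · rw [hq q.1, Finset.mul_sum]
        refine Finset.sum_congr rfl fun m _ => ?_
        rw [Finset.mul_sum]
        refine Finset.sum_congr rfl fun n _ => ?_
        push_cast
        ring
      · simp
    rw [Finset.sum_congr rfl fun q _ => h7 q, Finset.sum_comm]
    refine Finset.sum_congr rfl fun m hm => ?_
    rw [Finset.sum_comm]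
    refine Finset.sum_congr rfl fun n hn => ?_
    rw [← Finset.mul_sum]
    congr 1
    have h8 := h3 K P Q W hQ hW (a * m.1) (b * n.1) k (mul_ne_zero ha (hX m hm))
      (mul_ne_zero hb (hX n hn)) hk
    rw [sumC_eq (M := Q) (fun q _ _ hq' => by rw [hW0 q hq']; ring)] at h8
    rw [← Complex.ofReal_sum, h8, Complex.ofReal_add]
    congr 1
    split_ifs <;> simp
  -- the two parts of the sum over γ
  have hS : ∀ A B : Ideal (𝓞 K), A ≠ ⊥ → B ≠ ⊥ →
      ((∑' γ : {γ : K // Mu γ B A}, Uw P Q W k B γ.1 : ℝ) : ℂ) =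
        SZ P Q W H (se α u) k A B + SZ P Q W H (se β (-u)) k B A := by
    intro A B hA hB
    have : Finite {γ : K // Mu γ B A} := (mu_fin (K := K) (I := B) hA).to_subtype
    let e : {γ : K // Mu γ B A} ≃ {γ : K // Mu γ A B} :=
      { toFun := fun γ => ⟨γ.1⁻¹, mu_inv γ.2 (mu_ne' γ.2 hA)⟩
        invFun := fun γ => ⟨γ.1⁻¹, mu_inv γ.2 (mu_ne' γ.2 hB)⟩
        left_inv := fun γ => Subtype.ext (inv_inv _)
        right_inv := fun γ => Subtype.ext (inv_inv _) }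
    have pu : ∀ γ : {γ : K // Mu γ B A}, 0 < ‖em K γ.1‖ ^ 2 := by
      intro γ
      have h6 : em K γ.1 ≠ 0 := (map_ne_zero _).2 (mu_ne' γ.2 hA)
      positivity
    have h9 : SZ P Q W H (se β (-u)) k B A = ∑' γ : {γ : K // Mu γ B A},
        (((‖em K γ.1‖ ^ 2 : ℝ) : ℂ) ^ (-se β (-u)) * Hs H (se β (-u)) (‖em K γ.1‖ ^ 2)⁻¹) *
          ((Uw P Q W k B γ.1 : ℝ) : ℂ) := by
      unfold SZ
      rw [← e.tsum_eq]
      refine tsum_congr fun γ => ?_
      change (((‖em K γ.1⁻¹‖ ^ 2 : ℝ) : ℂ) ^ (se β (-u)) *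
        Hs H (se β (-u)) (‖em K γ.1⁻¹‖ ^ 2)) * ((Uw P Q W k A γ.1⁻¹ : ℝ) : ℂ) = _
      rw [h4 K P Q W A B k γ.1 hA hB γ.2, map_inv₀, norm_inv, inv_pow]
      congr 2
      rw [cexp' (inv_pos.2 (pu γ)), cexp' (pu γ), Real.log_inv]
      congr 1
      push_cast
      ring
    rw [h9]
    unfold SZ
    let _ := Fintype.ofFinite {γ : K // Mu γ B A}
    rw [tsum_fintype, tsum_fintype, tsum_fintype, ← Finset.sum_add_distrib, Complex.ofReal_sum]
    refine Finset.sum_congr rfl fun γ _ => ?_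
    rw [← add_mul, hsym _ (pu γ), one_mul]
  have hO2 := Oa2_eq (P := P) (H := H) hQ hZ hW hb ha hk0 hnm (α := β) (β := α) (u := -u) hG2
    (by rw [neg_neg]; exact hG1)
  rw [neg_neg] at hO2
  rw [hB, hD, Oa2_eq hQ hZ hW ha hb hk0 hnm hG1 hG2, hO2]
  rw [Finset.sum_comm (s := (fin_NI (K := K) (6 * Z)).toFinset) (f := fun n m =>
    cz P Z G (se β (-u)) n * cz P Z G (se α u) m *
      SZ P Q W H (se α u) k (a * m.1) (b * n.1))]
  rw [mul_comm (((nm b : ℝ) : ℂ) ^ (-se 0 (-u))) (((nm a : ℝ) : ℂ) ^ (-se 0 u)), ← mul_add,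
    ← mul_add, ← Finset.sum_add_distrib, ← Finset.sum_add_distrib]
  congr 1
  refine Finset.sum_congr rfl fun m hm => ?_
  rw [← Finset.sum_add_distrib, ← Finset.sum_add_distrib]
  refine Finset.sum_congr rfl fun n hn => ?_
  rw [hS _ _ (mul_ne_zero ha (hX m hm)) (mul_ne_zero hb (hX n hn))]
  ring

end Pool.Agent.H61.HC
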